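import Pool.Agent.helper54.UG.Spec

/-! Row ug:STP. -/

set_option autoImplicit false

namespace Pool.Agent.UG

open Matrix Pool.Agent.H48SL

theorem STP_lift {n : ℕ} (𝔞 : Submodule ℚ (MQ (n + 1))) : ∀ l : List (MQ n),
    (∀ X ∈ l, X ∈ 𝔞.map (dnL n)) → ∃ l' : List (MQ (n + 1)), (∀ X ∈ l', X ∈ 𝔞) ∧ l'.map dn = l := by
  intro l
  induction l with
  | nil => intro _; exact ⟨[], by simp, rfl⟩
  | cons Y l ih =>
    intro h
    obtain ⟨l', h1, h2⟩ := ih fun X hX => h X (List.mem_cons_of_mem _ hX)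
    obtain ⟨X, hX, hXY⟩ := h Y List.mem_cons_self
    refine ⟨X :: l', ?_, ?_⟩
    · intro Z hZ
      rcases List.mem_cons.1 hZ with hZ | hZ
      · rw [hZ]; exact hX
      · exact h1 Z hZ
    · rw [List.map_cons, h2]
      exact congrArg (fun A => A :: l) hXY

theorem STP_prod {n : ℕ} (𝔞 : Submodule ℚ (MQ (n + 1))) (hk : ∀ X ∈ 𝔞, X *ᵥ e0 n = 0) :
    ∀ l : List (MQ (n + 1)), (∀ X ∈ l, X ∈ 𝔞) → (l.map dn).prod = dn l.prod := by
  intro l
  induction l with
  | nil => intro _; rw [List.map_nil, List.prod_nil, List.prod_nil, dn_one]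
  | cons X l ih =>
    intro h
    rw [List.map_cons, List.prod_cons, List.prod_cons, ih fun Y hY => h Y (List.mem_cons_of_mem _ hY),
      dn_mul]
    intro i
    exact (kill_iff X).1 (hk X (h X List.mem_cons_self)) i.succ

theorem STP (hEXD : EXD_stmt) : STP_stmt := by
  intro n H 𝔞 hk hN hL hS hR
  refine ⟨?_, ?_, ?_⟩
  · obtain ⟨N, hN'⟩ := hN
    refine ⟨N, fun l hl hlen => ?_⟩
    obtain ⟨l', h1, h2⟩ := STP_lift 𝔞 l hl
    rw [← h2, STP_prod 𝔞 hk l' h1, hN' l' h1]
    · rfl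
    · rw [← h2, List.length_map] at hlen
      exact hlen
  · rintro _ ⟨X, hX, rfl⟩
    obtain ⟨k, hk1, h, hh, he⟩ := hL X hX
    have hkX : (k : ℚ) • X ∈ 𝔞 := 𝔞.smul_mem _ hX
    obtain ⟨-, h2, h3⟩ := hEXD n ((k : ℚ) • X) (hN.nil hkX) (hk _ hkX)
    have hf : fx h := by
      unfold fx
      rw [he]
      exact h3
    refine ⟨k, hk1, bl h hf, ?_, ?_⟩
    · rw [mem_Hb]
      exact ⟨h, hh, hf, (qg_bl h hf).symm⟩
    · rw [qg_bl, he, h2]
      rfl
  · intro ū
    obtain ⟨X, hX, hX0, hXu⟩ := hS (Fin.cons 0 ū)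
    have hkill := (kill_iff X).1 (hk X hX)
    refine ⟨dn X, ⟨X, hX, rfl⟩, ?_, ?_⟩
    · intro hd
      apply hX0
      have hvec : X = vecMulVec (e0 n) (X 0) := by
        ext i j
        rw [vecMulVec_apply]
        unfold e0
        refine Fin.cases ?_ (fun i' => ?_) i
        · rw [Pi.single_eq_same, one_mul]
        · rw [Pi.single_eq_of_ne (Fin.succ_ne_zero i'), zero_mul]
          refine Fin.cases ?_ (fun j' => ?_) j
          · exact hkill _
          · have := congrFun (congrFun hd i') j'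
            rw [dn_apply] at this
            exact this
      rw [hvec]
      apply hR
      rw [← hvec]
      exact hX
    · ext i
      have h1 := congrFun hXu i.succ
      have h2 : (X *ᵥ (Fin.cons 0 ū : Fin (n + 1) → ℚ)) i.succ = (dn X *ᵥ ū) i := by
        simp only [mulVec, dotProduct]
        rw [Fin.sum_univ_succ]
        simp only [Fin.cons_zero, Fin.cons_succ, mul_zero, zero_add]
        rfl
      rw [← h2, h1]
      rfl

end Pool.Agent.UG
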